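import Pool.Agent.N184.BB.Defs

/-!
# Orthogonal lifting: linear algebra on the strata
-/

set_option autoImplicit false

open Module

namespace Pool.Agent.N184.BB

/-- a linear form which vanishes on the kernel of a pairing is given by the pairing -/
lemma exists_repr {E F : Type*} [AddCommGroup E] [Module ℚ E] [AddCommGroup F] [Module ℚ F]
    (B : E →ₗ[ℚ] F →ₗ[ℚ] ℚ) (K : Submodule ℚ F) [FiniteDimensional ℚ (F ⧸ K)]
    (hK : ∀ w ∈ K, ∀ v, B v w = 0) (lam : F →ₗ[ℚ] ℚ) (hlam : ∀ w, (∀ v, B v w = 0) → lam w = 0) :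
    ∃ v, ∀ w, lam w = B v w := by
  classical
  -- the descended pairing
  have hle : ∀ v, K ≤ LinearMap.ker (B v) := fun v w hw => hK w hw v
  have hlamK : K ≤ LinearMap.ker lam := fun w hw => hlam w (hK w hw)
  let Bq : E →ₗ[ℚ] Module.Dual ℚ (F ⧸ K) :=
    { toFun := fun v => K.liftQ (B v) (hle v)
      map_add' := fun v v' => by
        refine LinearMap.ext fun x => ?_
        obtain ⟨w, rfl⟩ := K.mkQ_surjective x
        simp
      map_smul' := fun c v => by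
        refine LinearMap.ext fun x => ?_
        obtain ⟨w, rfl⟩ := K.mkQ_surjective x
        simp }
  have hBq : ∀ v w, Bq v (K.mkQ w) = B v w := fun v w => K.liftQ_apply _ _
  let lq : Module.Dual ℚ (F ⧸ K) := K.liftQ lam hlamK
  have hlq : ∀ w, lq (K.mkQ w) = lam w := fun w => K.liftQ_apply _ _
  have hmem : lq ∈ LinearMap.range Bq := by
    rw [← Subspace.dualCoannihilator_dualAnnihilator_eq (W := LinearMap.range Bq),
      Submodule.mem_dualAnnihilator]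
    intro x hx
    obtain ⟨w, rfl⟩ := K.mkQ_surjective x
    rw [hlq]
    refine hlam w fun v => ?_
    rw [← hBq]
    exact (Submodule.mem_dualCoannihilator _ ).mp hx _ ⟨v, rfl⟩
  obtain ⟨v, hv⟩ := hmem
  refine ⟨v, fun w => ?_⟩
  rw [← hBq, hv, hlq]

variable {d : ℕ} {A : ℕ → Type} [∀ r, CommRing (A r)] [∀ r, Algebra ℚ (A r)] (S : Strata d A)

lemma Strata.adj (r : ℕ) (a : A r) (b : A (r + 1)) :
    S.deg (r + 1) (S.ρ r a * b) = S.deg r (a * S.G r b) := S.adjoint r a b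

lemma Strata.ρρ (r : ℕ) (a : A r) : S.ρ (r + 1) (S.ρ r a) = 0 := S.rho_rho r a

lemma Strata.GG (r : ℕ) (c : A (r + 2)) : S.G r (S.G (r + 1) c) = 0 := S.gys_gys r c

lemma Strata.anti (r : ℕ) (b : A (r + 1)) : S.ρ r (S.G r b) + S.G (r + 1) (S.ρ (r + 1) b) = 0 :=
  S.rho_gys r b

lemma Strata.ρ_L (r : ℕ) (a : A r) : S.ρ r (a * S.L r) = S.ρ r a * S.L (r + 1) := S.rho_L r a

lemma Strata.pos (r : ℕ) (hr : r ≤ d) (f : A r) (hf : f ∈ S.gr r 0) (h : f ≠ 0) :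
    0 < S.deg r (f * f * S.L r ^ (d - r)) := S.positive r hr f hf h

lemma Strata.hodge (r : ℕ) (hr : r + 2 ≤ d) (x : A r) (hx : x ∈ S.gr r 1)
    (h : ∀ e ∈ S.gr r 0, S.deg r (x * e * S.L r ^ (d - r - 1)) = 0)
    (h2 : 0 ≤ S.deg r (x * x * S.L r ^ (d - r - 2))) : x ∈ S.num r 1 := S.index r hr x hx h h2

lemma Strata.mul_L {r p : ℕ} {a : A r} (ha : a ∈ S.gr r p) (k : ℕ) :
    a * S.L r ^ k ∈ S.gr r (p + k) := by
  induction k with
  | zero => simpa using ha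
  | succ k ih =>
    rw [_root_.pow_succ, ← mul_assoc]
    exact S.mul_mem r (p + k) 1 _ _ ih (S.L_mem r)

lemma Strata.ρ_L_pow {r : ℕ} (a : A r) (k : ℕ) :
    S.ρ r (a * S.L r ^ k) = S.ρ r a * S.L (r + 1) ^ k := by
  induction k with
  | zero => simp
  | succ k ih => rw [_root_.pow_succ, ← mul_assoc, S.ρ_L, ih, _root_.pow_succ, ← mul_assoc]

lemma Strata.adj' {r : ℕ} (a : A r) (b : A (r + 1)) :
    S.deg r (S.G r b * a) = S.deg (r + 1) (S.ρ r a * b) := by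
  rw [mul_comm, S.adj]

/-- the form `(u, h) ↦ deg (ρ u * ρ h * L ^ k)` is symmetric and computed by `G ρ` -/
lemma Strata.deg_ρρ {r : ℕ} (a b : A r) (k : ℕ) :
    S.deg (r + 1) (S.ρ r a * S.ρ r b * S.L (r + 1) ^ k) =
      S.deg r (a * S.L r ^ k * S.G r (S.ρ r b)) := by
  rw [← S.adj, S.ρ_L_pow]
  congr 1
  ring

/-- orthogonal projection to the complement of the image of `ρ : A^0(Y^(r+1)) → A^0(Y^(r+2))` -/
lemma Strata.exists_proj {r : ℕ} (hr : r + 1 ≤ d) (u : A (r + 1)) :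
    ∃ g ∈ S.gr r 0, ∀ e ∈ S.gr r 0,
      S.deg (r + 1) (S.ρ r e * (u - S.ρ r g) * S.L (r + 1) ^ (d - r - 1)) = 0 := by
  classical
  have hfin := S.finite₀ r
  let B : S.gr r 0 →ₗ[ℚ] S.gr r 0 →ₗ[ℚ] ℚ := LinearMap.mk₂ ℚ
    (fun g e => S.deg (r + 1) (S.ρ r e.1 * S.ρ r g.1 * S.L (r + 1) ^ (d - r - 1)))
    (fun g g' e => by
      rw [Submodule.coe_add, map_add, mul_add, add_mul, map_add])
    (fun c g e => by
      rw [Submodule.coe_smul, map_smul, mul_smul_comm, smul_mul_assoc, map_smul])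
    (fun g e e' => by
      rw [Submodule.coe_add, map_add, add_mul, add_mul, map_add])
    (fun c g e => by
      rw [Submodule.coe_smul, map_smul, smul_mul_assoc, smul_mul_assoc, map_smul])
  let lam : S.gr r 0 →ₗ[ℚ] ℚ :=
    { toFun := fun e => S.deg (r + 1) (S.ρ r e.1 * u * S.L (r + 1) ^ (d - r - 1))
      map_add' := fun e e' => by
        rw [Submodule.coe_add, map_add, add_mul, add_mul, map_add]
      map_smul' := fun c e => by
        rw [Submodule.coe_smul, map_smul, smul_mul_assoc, smul_mul_assoc, map_smul]; rfl }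
  have hfinq : FiniteDimensional ℚ (S.gr r 0 ⧸ (⊥ : Submodule ℚ (S.gr r 0))) := inferInstance
  obtain ⟨g, hg⟩ := exists_repr B ⊥ (fun w hw v => by
    rw [(Submodule.mem_bot ℚ).mp hw, map_zero]) lam (fun w hw => by
    have h1 : S.deg (r + 1) (S.ρ r w.1 * S.ρ r w.1 * S.L (r + 1) ^ (d - r - 1)) = 0 := hw w
    have h2 : S.ρ r w.1 = 0 := by
      by_contra hne
      have h3 := S.pos (r + 1) hr _ (S.ρ_mem r 0 _ w.2) hne
      rw [show d - (r + 1) = d - r - 1 by omega, h1] at h3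
      exact lt_irrefl _ h3
    change S.deg (r + 1) (S.ρ r w.1 * u * S.L (r + 1) ^ (d - r - 1)) = 0
    rw [h2, zero_mul, zero_mul, map_zero])
  refine ⟨g.1, g.2, fun e he => ?_⟩
  have h1 : S.deg (r + 1) (S.ρ r e * u * S.L (r + 1) ^ (d - r - 1)) =
      S.deg (r + 1) (S.ρ r e * S.ρ r g.1 * S.L (r + 1) ^ (d - r - 1)) := hg ⟨e, he⟩
  rw [mul_sub, sub_mul, map_sub, h1, sub_self]

/-- harmonic functions: if `h ∈ A^0(Y^(r+2))` is orthogonal to the image of `ρ` and the square of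
`G h` vanishes then `G h` is numerically trivial -/
lemma Strata.G_num {r : ℕ} (hr : r + 1 ≤ d) {h : A (r + 1)} (hh : h ∈ S.gr (r + 1) 0)
    (horth : ∀ e ∈ S.gr r 0, S.deg (r + 1) (S.ρ r e * h * S.L (r + 1) ^ (d - r - 1)) = 0)
    (hsq : r + 2 ≤ d → 0 ≤ S.deg r (S.G r h * S.G r h * S.L r ^ (d - r - 2))) :
    S.G r h ∈ S.num r 1 := by
  have hmem : S.G r h ∈ S.gr r 1 := by simpa using S.G_mem r 0 h hh
  have hprim : ∀ e ∈ S.gr r 0, S.deg r (S.G r h * e * S.L r ^ (d - r - 1)) = 0 := by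
    intro e he
    rw [mul_assoc, S.adj', S.ρ_L_pow, ← horth e he]
    congr 1
    ring
  rcases Nat.lt_or_ge d (r + 2) with hlt | hge
  · refine ⟨hmem, fun q hq y hy => ?_⟩
    have hq0 : q = 0 := by omega
    subst hq0
    have h1 := hprim y hy
    rwa [show d - r - 1 = 0 by omega, pow_zero, mul_one] at h1
  · exact S.hodge r hge _ hmem hprim (hsq hge)

/-- the pairing of cycles `v`, `w` on `Y^(1)` -/
lemma Strata.pair_eq (v w : A 0) :
    S.deg 0 (S.G 0 (S.ρ 0 v) * w) = S.deg 1 (S.ρ 0 w * S.ρ 0 v) := S.adj' w (S.ρ 0 v)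

/-- cycles of dimension zero: `i = d` -/
lemma Strata.kernel_zero (hd : 1 ≤ d) {w : A 0} (hw : w ∈ S.gr 0 0)
    (hK : ∀ v ∈ S.gr 0 (d - 1), S.deg 0 (S.G 0 (S.ρ 0 v) * w) = 0) : S.ρ 0 w = 0 := by
  by_contra hne
  have h1 := S.pos 1 hd _ (S.ρ_mem 0 0 _ hw) hne
  have h2 := hK (w * S.L 0 ^ (d - 1)) (by simpa using S.mul_L hw (d - 1))
  rw [S.pair_eq, S.ρ_L_pow, ← mul_assoc] at h2
  exact absurd h2 h1.ne'

/-- cycles of dimension one: `i = d - 1` -/
lemma Strata.kernel_one (hd : 2 ≤ d) {w : A 0} (hw : w ∈ S.gr 0 1)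
    (hK : ∀ v ∈ S.gr 0 (d - 2), S.deg 0 (S.G 0 (S.ρ 0 v) * w) = 0) :
    ∃ u ∈ S.gr 1 0, S.ρ 0 (w + S.G 0 u) ∈ S.num 1 1 := by
  classical
  have hK' : ∀ v ∈ S.gr 0 (d - 2), S.deg 1 (S.ρ 0 v * S.ρ 0 w) = 0 := by
    intro v hv
    have h1 := hK v hv
    rwa [S.pair_eq, mul_comm] at h1
  have hρw : S.ρ 0 w ∈ S.gr 1 1 := S.ρ_mem 0 1 _ hw
  -- step 1
  have h1 : ∀ h ∈ S.gr 1 0, S.ρ 1 h = 0 → S.deg 1 (S.ρ 0 w * h * S.L 1 ^ (d - 2)) = 0 := by
    intro h hh hρh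
    obtain ⟨g, hg, horth⟩ := S.exists_proj (r := 0) (by omega) h
    set h0 := h - S.ρ 0 g with hh0
    have hh0mem : h0 ∈ S.gr 1 0 := sub_mem hh (S.ρ_mem 0 0 _ hg)
    have hρh0 : S.ρ 1 h0 = 0 := by rw [hh0, map_sub, hρh, S.ρρ, sub_zero]
    have hρG : S.ρ 0 (S.G 0 h0) = 0 := by
      have := S.anti 0 h0
      rw [hρh0, map_zero, add_zero] at this
      exact this
    have hnum : S.G 0 h0 ∈ S.num 0 1 := by
      refine S.G_num (by omega) hh0mem horth fun _ => (le_of_eq ?_)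
      rw [show S.G 0 h0 * S.G 0 h0 * S.L 0 ^ (d - 0 - 2) =
        S.G 0 h0 * (S.G 0 h0 * S.L 0 ^ (d - 0 - 2)) by ring, S.adj', S.ρ_L_pow, hρG]
      simp
    have h2 : S.deg 1 (S.ρ 0 w * h0 * S.L 1 ^ (d - 2)) = 0 := by
      have h3 := hnum.2 (1 + (d - 2)) (by omega) (w * S.L 0 ^ (d - 2)) (S.mul_L hw (d - 2))
      rw [S.adj', S.ρ_L_pow] at h3
      rw [← h3]
      congr 1
      ring
    have h4 : S.deg 1 (S.ρ 0 w * S.ρ 0 g * S.L 1 ^ (d - 2)) = 0 := by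
      have h5 := hK' (g * S.L 0 ^ (d - 2)) (by simpa using S.mul_L hg (d - 2))
      rw [S.ρ_L_pow] at h5
      rw [← h5]
      congr 1
      ring
    have h6 : h = h0 + S.ρ 0 g := by rw [hh0]; ring
    rw [h6, mul_add, add_mul, map_add, h2, h4, add_zero]
  -- step 2
  have hfin := S.finite₀ 1
  let B : S.gr 1 0 →ₗ[ℚ] S.gr 1 0 →ₗ[ℚ] ℚ := LinearMap.mk₂ ℚ
    (fun g e => S.deg 2 (S.ρ 1 e.1 * S.ρ 1 g.1 * S.L 2 ^ (d - 2)))
    (fun g g' e => by
      rw [Submodule.coe_add, map_add, mul_add, add_mul, map_add])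
    (fun c g e => by
      rw [Submodule.coe_smul, map_smul, mul_smul_comm, smul_mul_assoc, map_smul])
    (fun g e e' => by
      rw [Submodule.coe_add, map_add, add_mul, add_mul, map_add])
    (fun c g e => by
      rw [Submodule.coe_smul, map_smul, smul_mul_assoc, smul_mul_assoc, map_smul])
  let lam : S.gr 1 0 →ₗ[ℚ] ℚ :=
    { toFun := fun e => S.deg 1 (S.ρ 0 w * e.1 * S.L 1 ^ (d - 2))
      map_add' := fun e e' => by
        rw [Submodule.coe_add, mul_add, add_mul, map_add]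
      map_smul' := fun c e => by
        rw [Submodule.coe_smul, mul_smul_comm, smul_mul_assoc, map_smul]; rfl }
  have hfinq : FiniteDimensional ℚ (S.gr 1 0 ⧸ (⊥ : Submodule ℚ (S.gr 1 0))) := inferInstance
  obtain ⟨u, hu⟩ := exists_repr B ⊥ (fun w hw v => by
    rw [(Submodule.mem_bot ℚ).mp hw, map_zero]) lam (fun x hx => by
    have h2 : S.deg 2 (S.ρ 1 x.1 * S.ρ 1 x.1 * S.L 2 ^ (d - 2)) = 0 := hx x
    have h3 : S.ρ 1 x.1 = 0 := by
      by_contra hne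
      exact absurd h2 (S.pos 2 hd _ (S.ρ_mem 1 0 _ x.2) hne).ne'
    exact h1 x.1 x.2 h3)
  have hu' : ∀ h ∈ S.gr 1 0, S.deg 1 (S.ρ 0 w * h * S.L 1 ^ (d - 2)) =
      S.deg 2 (S.ρ 1 h * S.ρ 1 u.1 * S.L 2 ^ (d - 2)) := fun h hh => hu ⟨h, hh⟩
  -- step 3
  refine ⟨u.1, u.2, ?_⟩
  have hGu : S.G 0 u.1 ∈ S.gr 0 1 := by simpa using S.G_mem 0 0 u.1 u.2
  have hw' : w + S.G 0 u.1 ∈ S.gr 0 1 := add_mem hw hGu
  have hρG : S.ρ 0 (S.G 0 u.1) = - S.G 1 (S.ρ 1 u.1) := eq_neg_of_add_eq_zero_left (S.anti 0 u.1)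
  set y := S.ρ 0 (w + S.G 0 u.1) with hy
  have hymem : y ∈ S.gr 1 1 := S.ρ_mem 0 1 _ hw'
  have hprim : ∀ e ∈ S.gr 1 0, S.deg 1 (y * e * S.L 1 ^ (d - 2)) = 0 := by
    intro e he
    have h2 : S.deg 1 (S.G 1 (S.ρ 1 u.1) * e * S.L 1 ^ (d - 2)) =
        S.deg 2 (S.ρ 1 e * S.ρ 1 u.1 * S.L 2 ^ (d - 2)) := by
      rw [mul_assoc, S.adj', S.ρ_L_pow]
      congr 1
      ring
    rw [hy, map_add, hρG, ← sub_eq_add_neg, sub_mul, sub_mul, map_sub, h2, hu' e he, sub_self]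
  rcases Nat.lt_or_ge d 3 with hlt | hge
  · refine ⟨hymem, fun q hq z hz => ?_⟩
    have hq0 : q = 0 := by omega
    subst hq0
    have h2 := hprim z hz
    rwa [show d - 2 = 0 by omega, pow_zero, mul_one] at h2
  · refine S.hodge 1 hge _ hymem (fun e he => by
      rw [show d - 1 - 1 = d - 2 by omega]; exact hprim e he) (le_of_eq ?_)
    have hGy : S.G 0 y = S.G 0 (S.ρ 0 w) := by
      rw [hy, map_add, hρG, map_add, map_neg, S.GG, neg_zero, add_zero]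
    have h2 := hK' ((w + S.G 0 u.1) * S.L 0 ^ (d - 3)) (by
      have := S.mul_L hw' (d - 3)
      rwa [show 1 + (d - 3) = d - 2 by omega] at this)
    rw [S.adj, ← hGy, ← S.adj, S.ρ_L_pow, ← hy] at h2
    rw [← h2, show d - 1 - 2 = d - 3 by omega]
    congr 1
    ring

/-- divisors: `i = 1` -/
lemma Strata.kernel_divisor (hd : 1 ≤ d) {lam : A 0} (hρ : S.ρ 0 lam = 0)
    (hcoh : ∀ w ∈ S.gr 0 (d - 1), S.ρ 0 w ∈ S.num 1 (d - 1) → S.deg 0 (lam * w) = 0)
    {w : A 0} (hw : w ∈ S.gr 0 (d - 1))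
    (hK : ∀ v ∈ S.gr 0 0, S.deg 0 (S.G 0 (S.ρ 0 v) * w) = 0) : S.deg 0 (lam * w) = 0 := by
  classical
  -- `lam` is numerically equivalent to `G u`
  let B : S.gr 1 0 →ₗ[ℚ] S.gr 0 (d - 1) →ₗ[ℚ] ℚ := LinearMap.mk₂ ℚ
    (fun g e => S.deg 1 (S.ρ 0 e.1 * g.1))
    (fun g g' e => by
      rw [Submodule.coe_add, mul_add, map_add])
    (fun c g e => by
      rw [Submodule.coe_smul, mul_smul_comm, map_smul])
    (fun g e e' => by
      rw [Submodule.coe_add, map_add, add_mul, map_add])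
    (fun c g e => by
      rw [Submodule.coe_smul, map_smul, smul_mul_assoc, map_smul])
  let lf : S.gr 0 (d - 1) →ₗ[ℚ] ℚ :=
    { toFun := fun e => S.deg 0 (lam * e.1)
      map_add' := fun e e' => by
        rw [Submodule.coe_add, mul_add, map_add]
      map_smul' := fun c e => by
        rw [Submodule.coe_smul, mul_smul_comm, map_smul]; rfl }
  have hfinq := S.finite 0 (d - 1)
  obtain ⟨u, hu⟩ := exists_repr B ((S.num 0 (d - 1)).submoduleOf (S.gr 0 (d - 1)))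
    (fun x hx v => by
      have hx' : x.1 ∈ S.num 0 (d - 1) := hx
      have h1 := hx'.2 1 (by omega) (S.G 0 v.1) (by simpa using S.G_mem 0 0 v.1 v.2)
      rw [← S.adj] at h1
      exact h1) lf (fun x hx => by
      refine hcoh x.1 x.2 ⟨S.ρ_mem 0 _ _ x.2, fun q hq y hy => ?_⟩
      have hq0 : q = 0 := by omega
      subst hq0
      exact hx ⟨y, hy⟩)
  have hu' : ∀ x ∈ S.gr 0 (d - 1), S.deg 0 (lam * x) = S.deg 1 (S.ρ 0 x * u.1) :=
    fun x hx => hu ⟨x, hx⟩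
  obtain ⟨g, hg, horth⟩ := S.exists_proj (r := 0) (by omega) u.1
  set h := u.1 - S.ρ 0 g with hh
  have hhmem : h ∈ S.gr 1 0 := sub_mem u.2 (S.ρ_mem 0 0 _ hg)
  have hGh : S.G 0 h ∈ S.gr 0 1 := by simpa using S.G_mem 0 0 h hhmem
  have hnum : S.G 0 h ∈ S.num 0 1 := by
    refine S.G_num (by omega) hhmem horth fun hge => ?_
    · refine le_of_eq ?_
      have hx : S.G 0 h * S.L 0 ^ (d - 2) ∈ S.gr 0 (d - 1) := by
        have := S.mul_L hGh (d - 2)
        rwa [show 1 + (d - 2) = d - 1 by omega] at this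
      have h1 := hu' _ hx
      have h2 : S.deg 1 (S.ρ 0 (S.G 0 h * S.L 0 ^ (d - 2)) * S.ρ 0 g) = 0 := by
        have h3 : S.ρ 0 (S.G 0 h) = - S.G 1 (S.ρ 1 h) :=
          eq_neg_of_add_eq_zero_left (S.anti 0 h)
        rw [S.ρ_L_pow, h3, neg_mul, neg_mul, map_neg, neg_eq_zero, mul_assoc, S.adj', mul_comm (S.L 1 ^ _),
          S.ρ_L_pow, S.ρρ]
        simp
      have h4 : S.deg 0 (lam * (S.G 0 h * S.L 0 ^ (d - 2))) = 0 := by
        rw [show lam * (S.G 0 h * S.L 0 ^ (d - 2)) = S.G 0 h * (lam * S.L 0 ^ (d - 2)) by ring,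
          S.adj', S.ρ_L_pow, hρ]
        simp
      have h5 : S.deg 1 (S.ρ 0 (S.G 0 h * S.L 0 ^ (d - 2)) * h) = 0 := by
        rw [hh, mul_sub, map_sub, ← h1, h4, h2, sub_zero]
      rw [S.adj, ← mul_comm] at h5
      rw [← h5, show d - 0 - 2 = d - 2 by omega]
      congr 1
      ring
  have h6 : S.deg 1 (S.ρ 0 w * h) = 0 := by
    have h7 := hnum.2 (d - 1) (by omega) w hw
    rwa [S.adj'] at h7
  have h8 : S.deg 1 (S.ρ 0 w * S.ρ 0 g) = 0 := by
    have h9 := hK g hg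
    rwa [S.pair_eq] at h9
  have h10 : u.1 = h + S.ρ 0 g := by rw [hh]; ring
  rw [hu' w hw, h10, mul_add, map_add, h6, h8, add_zero]

/-- **Orthogonal lifting on the strata.** -/
theorem Strata.exists_vertical {i : ℕ} (hi : 0 < i) (hid : i ≤ d) (h : i ≤ 1 ∨ d ≤ i + 1) {lam : A 0}
    (hρ : S.ρ 0 lam = 0)
    (hcoh : ∀ w ∈ S.gr 0 (d - i), S.ρ 0 w ∈ S.num 1 (d - i) → S.deg 0 (lam * w) = 0) :
    ∃ v ∈ S.gr 0 (i - 1), ∀ w ∈ S.gr 0 (d - i),
      S.deg 0 (lam * w) = S.deg 0 (S.G 0 (S.ρ 0 v) * w) := by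
  classical
  let B : S.gr 0 (i - 1) →ₗ[ℚ] S.gr 0 (d - i) →ₗ[ℚ] ℚ := LinearMap.mk₂ ℚ
    (fun v w => S.deg 0 (S.G 0 (S.ρ 0 v.1) * w.1))
    (fun g g' e => by
      rw [Submodule.coe_add, map_add, map_add, add_mul, map_add])
    (fun c g e => by
      rw [Submodule.coe_smul, map_smul, map_smul, smul_mul_assoc, map_smul])
    (fun g e e' => by
      rw [Submodule.coe_add, mul_add, map_add])
    (fun c g e => by
      rw [Submodule.coe_smul, mul_smul_comm, map_smul])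
  let lf : S.gr 0 (d - i) →ₗ[ℚ] ℚ :=
    { toFun := fun e => S.deg 0 (lam * e.1)
      map_add' := fun e e' => by
        rw [Submodule.coe_add, mul_add, map_add]
      map_smul' := fun c e => by
        rw [Submodule.coe_smul, mul_smul_comm, map_smul]; rfl }
  have hfinq := S.finite 0 (d - i)
  obtain ⟨v, hv⟩ := exists_repr B ((S.num 0 (d - i)).submoduleOf (S.gr 0 (d - i)))
    (fun x hx v => by
      have hx' : x.1 ∈ S.num 0 (d - i) := hx
      have h1 := hx'.2 i (by omega) (S.G 0 (S.ρ 0 v.1)) (by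
        have := S.G_mem 0 (i - 1) _ (S.ρ_mem 0 _ _ v.2)
        rwa [show i - 1 + 1 = i by omega] at this)
      rw [mul_comm] at h1
      exact h1) lf (fun x hx => by
      have hK : ∀ v ∈ S.gr 0 (i - 1), S.deg 0 (S.G 0 (S.ρ 0 v) * x.1) = 0 := fun v hv => hx ⟨v, hv⟩
      change S.deg 0 (lam * x.1) = 0
      obtain ⟨x, hxm⟩ := x
      change ∀ v ∈ S.gr 0 (i - 1), S.deg 0 (S.G 0 (S.ρ 0 v) * x) = 0 at hK
      change S.deg 0 (lam * x) = 0
      clear hx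
      rcases Nat.lt_or_ge i 2 with hi1 | hi2
      · have : i = 1 := by omega
        subst this
        exact S.kernel_divisor hid hρ hcoh hxm hK
      · rcases Nat.lt_or_ge i d with hlt | hge
        · have hd' : d = i + 1 := by omega
          subst hd'
          rw [show i + 1 - i = 1 by omega] at hxm hcoh
          obtain ⟨u, hu, hnum⟩ := S.kernel_one (by omega) hxm (fun v hv => hK v (by
            rwa [show i + 1 - 2 = i - 1 by omega] at hv))
          have hGu : S.G 0 u ∈ S.gr 0 1 := by simpa using S.G_mem 0 0 u hu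
          have h1 := hcoh _ (add_mem hxm hGu) hnum
          have h2 : S.deg 0 (lam * S.G 0 u) = 0 := by
            rw [← S.adj, hρ]; simp
          rwa [mul_add, map_add, h2, add_zero] at h1
        · have hd' : d = i := by omega
          subst hd'
          rw [Nat.sub_self] at hxm hcoh
          have h1 := S.kernel_zero (by omega) hxm hK
          exact hcoh x hxm (by rw [h1]; exact zero_mem _))
  exact ⟨v.1, v.2, fun w hw => hv ⟨w, hw⟩⟩

end Pool.Agent.N184.BB
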