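import Mathlib

/-!
# Cycles on the strata of a strictly semistable scheme, and models over rings of integers: definitions
-/

set_option autoImplicit false

open Module

namespace Pool.Agent.N184.BB

/-- Graded rings with a degree map: `A r` is the Chow ring `CH^*(Y^(r+1))`, with coefficients `ℚ`, of
the smooth projective scheme `Y^(r+1)` of pure dimension `d - r` over a finite field, `gr r p` is the
part of codimension `p` and `deg r` is the degree of cycles of dimension `0` (and zero on the other
cycles). -/
structure ChowRings (d : ℕ) (A : ℕ → Type) [∀ r, CommRing (A r)] [∀ r, Algebra ℚ (A r)] where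
  gr : ∀ r : ℕ, ℕ → Submodule ℚ (A r)
  mul_mem : ∀ (r p q : ℕ) (a b : A r), a ∈ gr r p → b ∈ gr r q → a * b ∈ gr r (p + q)
  deg : ∀ r, A r →ₗ[ℚ] ℚ

/-- The cycles of codimension `p` on `Y^(r+1)` which are numerically equivalent to zero. -/
def ChowRings.num {d : ℕ} {A : ℕ → Type} [∀ r, CommRing (A r)] [∀ r, Algebra ℚ (A r)]
    (S : ChowRings d A) (r p : ℕ) : Submodule ℚ (A r) where
  carrier := {x | x ∈ S.gr r p ∧ ∀ q, p + q + r = d → ∀ y ∈ S.gr r q, S.deg r (x * y) = 0}
  add_mem' := by
    rintro x y ⟨hx, hx'⟩ ⟨hy, hy'⟩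
    refine ⟨add_mem hx hy, fun q hq z hz => ?_⟩
    rw [add_mul, map_add, hx' q hq z hz, hy' q hq z hz, add_zero]
  zero_mem' := ⟨zero_mem _, fun q _ y _ => by rw [zero_mul, map_zero]⟩
  smul_mem' := by
    rintro c x ⟨hx, hx'⟩
    refine ⟨Submodule.smul_mem _ c hx, fun q hq z hz => ?_⟩
    rw [smul_mul_assoc, map_smul, hx' q hq z hz, smul_zero]

/-- The degree of `a`. -/
def ChowRings.dg {d : ℕ} {A : ℕ → Type} [∀ r, CommRing (A r)] [∀ r, Algebra ℚ (A r)]
    (S : ChowRings d A) (r : ℕ) (a : A r) : ℚ := S.deg r a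

/-- `a` is a cycle of codimension `p` on `Y^(r+1)`. -/
def ChowRings.Codim {d : ℕ} {A : ℕ → Type} [∀ r, CommRing (A r)] [∀ r, Algebra ℚ (A r)]
    (S : ChowRings d A) (r p : ℕ) (a : A r) : Prop := a ∈ S.gr r p

/-- Linear maps `ρ r` (restriction, which preserves the codimension) and `G r` (direct image, which
raises the codimension by one) between the Chow rings of `Y^(r+1)` and `Y^(r+2)`. -/
structure Maps (d : ℕ) (A : ℕ → Type) [∀ r, CommRing (A r)] [∀ r, Algebra ℚ (A r)] extends
    ChowRings d A where
  ρ : ∀ r, A r →ₗ[ℚ] A (r + 1)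
  G : ∀ r, A (r + 1) →ₗ[ℚ] A r
  ρ_mem : ∀ (r p : ℕ) (a : A r), a ∈ gr r p → ρ r a ∈ gr (r + 1) p
  G_mem : ∀ (r p : ℕ) (b : A (r + 1)), b ∈ gr (r + 1) p → G r b ∈ gr r (p + 1)

/-- The image of `a` by `ρ r`. -/
def Maps.rho {d : ℕ} {A : ℕ → Type} [∀ r, CommRing (A r)] [∀ r, Algebra ℚ (A r)]
    (S : Maps d A) (r : ℕ) (a : A r) : A (r + 1) := S.ρ r a

/-- The image of `b` by `G r`. -/
def Maps.gys {d : ℕ} {A : ℕ → Type} [∀ r, CommRing (A r)] [∀ r, Algebra ℚ (A r)]
    (S : Maps d A) (r : ℕ) (b : A (r + 1)) : A r := S.G r b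

/-- The cycles on the strata of a strictly semistable scheme `𝒳`, proper and of relative dimension `d`
over a complete discrete valuation ring with finite residue field. Let `Y_1, ..., Y_n` be the
irreducible components of the special fibre. Then `Y^(r+1)` is the disjoint union of the
intersections of `r + 1` of them, which is smooth and proper of pure dimension `d - r`, and `A r`
is its Chow ring. The map `ρ r` is the alternating sum of the restrictions and `G r` is the alternating
sum of the direct images (Gysin maps), with the same signs. So `ρ r` and `G r` are adjoint,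
`ρ ∘ ρ = 0`, `G ∘ G = 0`, and on `A (r + 1)` we have `ρ ∘ G + G ∘ ρ = 0`, because the divisor
`Y_1 + ... + Y_n` is principal. -/
structure Cells (d : ℕ) (A : ℕ → Type) [∀ r, CommRing (A r)] [∀ r, Algebra ℚ (A r)] extends
    Maps d A where
  adjoint : ∀ (r : ℕ) (a : A r) (b : A (r + 1)),
    toChowRings.dg (r + 1) (toMaps.rho r a * b) = toChowRings.dg r (a * toMaps.gys r b)
  rho_rho : ∀ (r : ℕ) (a : A r), toMaps.rho (r + 1) (toMaps.rho r a) = 0
  gys_gys : ∀ (r : ℕ) (c : A (r + 2)), toMaps.gys r (toMaps.gys (r + 1) c) = 0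
  rho_gys : ∀ (r : ℕ) (b : A (r + 1)),
    toMaps.rho r (toMaps.gys r b) + toMaps.gys (r + 1) (toMaps.rho (r + 1) b) = 0

/-- The strictly semistable scheme `𝒳` is projective and `L r` is the class in `A r` of an ample line
bundle on `𝒳`. The group `gr r 0` consists of the functions on the finite set of the components of
`Y^(r+1)` (`finite₀`, `positive`). The groups of cycles modulo numerical equivalence have finite dimension
(`finite`). -/
structure Polarized (d : ℕ) (A : ℕ → Type) [∀ r, CommRing (A r)] [∀ r, Algebra ℚ (A r)] extends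
    Cells d A where
  L : ∀ r, A r
  L_mem : ∀ r, toChowRings.Codim r 1 (L r)
  rho_L : ∀ (r : ℕ) (a : A r), toMaps.rho r (a * L r) = toMaps.rho r a * L (r + 1)
  positive : ∀ r, r ≤ d → ∀ f, toChowRings.Codim r 0 f → f ≠ 0 →
    0 < toChowRings.dg r (f * f * L r ^ (d - r))
  finite₀ : ∀ r, FiniteDimensional ℚ (gr r 0)
  finite : ∀ r p, FiniteDimensional ℚ (gr r p ⧸ (toChowRings.num r p).submoduleOf (gr r p))

/-- The system of the strata of a projective strictly semistable scheme, with the index theorem for
divisors (Segre, Grothendieck): the quadratic form `x ↦ x² L^(d-r-2)` on the primitive divisor classes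
of `Y^(r+1)` modulo numerical equivalence is negative definite. -/
structure Strata (d : ℕ) (A : ℕ → Type) [∀ r, CommRing (A r)] [∀ r, Algebra ℚ (A r)] extends
    Polarized d A where
  index : ∀ r, r + 2 ≤ d → ∀ x, toChowRings.Codim r 1 x →
    (∀ e, toChowRings.Codim r 0 e → toChowRings.dg r (x * e * L r ^ (d - r - 1)) = 0) →
    0 ≤ toChowRings.dg r (x * x * L r ^ (d - r - 2)) → x ∈ toChowRings.num r 1

/-- The cohomology (with coefficients in a field `K` of characteristic zero) of the strata `Y^(1)` and
`Y^(2)` over the algebraic closure of the residue field: `H₀`, `H₀'` are the groups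
`H^{2 i}(Y^(1))(i)` and `H^{2 (d - i)}(Y^(1))(d - i)`, in duality by `pair₀`, and `H₁`, `H₁'` are the
groups `H^{2 i - 2}(Y^(2))(i - 1)` and `H^{2 (d - i)}(Y^(2))(d - i)`, in duality by `pair₁`, with the
Gysin map and the restriction (with the signs of `G` and `ρ`), which are adjoint. -/
structure Cohomology (K : Type) [Field K] where
  H₀ : Type
  H₀' : Type
  H₁ : Type
  H₁' : Type
  [h₀ : AddCommGroup H₀]
  [h₀' : AddCommGroup H₀']
  [h₁ : AddCommGroup H₁]
  [h₁' : AddCommGroup H₁']
  [m₀ : Module K H₀]
  [m₀' : Module K H₀']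
  [m₁ : Module K H₁]
  [m₁' : Module K H₁']
  pair₀ : H₀ →ₗ[K] H₀' →ₗ[K] K
  pair₁ : H₁ →ₗ[K] H₁' →ₗ[K] K
  gysin : H₁ →ₗ[K] H₀
  restrict : H₀' →ₗ[K] H₁'
  adjoint : ∀ x y, pair₀ (gysin x) y = pair₁ x (restrict y)

attribute [instance] Cohomology.h₀ Cohomology.h₀' Cohomology.h₁ Cohomology.h₁' Cohomology.m₀
  Cohomology.m₀' Cohomology.m₁ Cohomology.m₁'

/-- The duality between `H₀` and `H₀'`. -/
def Cohomology.pair {K : Type} [Field K] (H : Cohomology K) (x : H.H₀) (y : H.H₀') : K := H.pair₀ x y

/-- The cycle classes in the cohomology `H` of the strata of the system `S`: `cl₀` (codimension `i`) and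
`cl₀'` (codimension `d - i`) on `Y^(1)`, and `cl₁'` (codimension `d - i`) on `Y^(2)`; they are
compatible with the restriction and with the degree. The last field `hom_num` says that numerical and
homological equivalence are the same for divisors (Matsusaka), for cycles of codimension `0` and
for cycles of dimension `0` on `Y^(2)`. -/
structure CycleClasses {d : ℕ} {A : ℕ → Type} [∀ r, CommRing (A r)] [∀ r, Algebra ℚ (A r)]
    (S : Strata d A) (i : ℕ) {K : Type} [Field K] (H : Cohomology K) where
  cl₀ : A 0 →+ H.H₀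
  cl₀' : A 0 →+ H.H₀'
  cl₁' : A 1 →+ H.H₁'
  cl_rho : ∀ w, S.Codim 0 (d - i) w → cl₁' (S.rho 0 w) = H.restrict (cl₀' w)
  cl_deg : ∀ a b, S.Codim 0 i a → S.Codim 0 (d - i) b →
    H.pair (cl₀ a) (cl₀' b) = ((S.dg 0 (a * b) : ℚ) : K)
  hom_num : i ≤ 1 ∨ d ≤ i + 1 → ∀ x ∈ S.num 1 (d - i), cl₁' x = 0

/-- A strictly semistable alteration, together with its strata. Let `𝒳` be a regular proper flat scheme
of relative dimension `d` over a complete discrete valuation ring `O` with finite residue field, let
`C` be the group of the cycles of codimension `i` on `𝒳` (modulo rational equivalence, with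
coefficients `ℚ`, or a group which maps to it) with homologically trivial restriction to the generic
fibre, let `V` and `V'` be the groups of the cycles of codimension `i` and `d + 1 - i` on `𝒳` supported
on the special fibre, with the map `ι` of `V` to `C`, and the intersection numbers `int` of elements of
`C` and `V'`. All degrees of zero cycles are taken over the residue field of `O`.

By de Jong there is an alteration `π : 𝒳' → 𝒳`, of degree `δ`, where `𝒳'` is projective and strictly
semistable over a finite extension of `O`. Let `S` be the system of its strata. Then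

* `sp z` is the restriction of `π^* z` to `Y^(1)`;
* `push` is the composition of the direct image from `Y^(1)` to `𝒳'` and `π_*`. Every cycle
  supported on the special fibre of `𝒳'`, for example `π^* w` for `w ∈ V'`, is the direct image of a
  cycle `w'` on `Y^(1)`; so `pull` is the projection formula, together with the formula for the
  restriction to `Y^(1)` of the direct image of `v`, which is `- G (ρ v)`. -/
structure Alteration (d i : ℕ) {C V V' : Type} [AddCommGroup C] [Module ℚ C] [AddCommGroup V]
    [Module ℚ V] [AddCommGroup V'] [Module ℚ V'] (ι : V →ₗ[ℚ] C) (int : C →ₗ[ℚ] V' →ₗ[ℚ] ℚ) where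
  A : ℕ → Type
  [ring : ∀ r, CommRing (A r)]
  [alg : ∀ r, Algebra ℚ (A r)]
  S : Strata d A
  δ : ℚ
  δ_ne : δ ≠ 0
  sp : C →ₗ[ℚ] A 0
  sp_mem : ∀ z, S.Codim 0 i (sp z)
  rho_sp : ∀ z, S.rho 0 (sp z) = 0
  push : A 0 →ₗ[ℚ] V
  pull : ∀ w : V', ∃ w', S.Codim 0 (d - i) w' ∧ (∀ z, δ * int z w = S.dg 0 (sp z * w')) ∧
    ∀ v, S.Codim 0 (i - 1) v → int (ι (push v)) w = - S.dg 0 (S.gys 0 (S.rho 0 v) * w')

attribute [instance] Alteration.ring Alteration.alg

/-- A strictly semistable alteration and the `ℓ`-adic cycle classes of its strata. The field `weight`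
says that the class of `sp z` is in the image of the Gysin map: the class of `z` vanishes in the
cohomology of the geometric generic fibre, so the class of `sp z` is a boundary in the weight
spectral sequence of Rapoport and Zink for `𝒳'`, which degenerates at `E_2`. -/
structure AlterationWithClasses (d i : ℕ) {C V V' : Type} [AddCommGroup C] [Module ℚ C]
    [AddCommGroup V] [Module ℚ V] [AddCommGroup V'] [Module ℚ V'] (ι : V →ₗ[ℚ] C)
    (int : C →ₗ[ℚ] V' →ₗ[ℚ] ℚ) extends Alteration d i ι int where
  ℓ : ℕ
  [prime : Fact ℓ.Prime]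
  H : Cohomology ℚ_[ℓ]
  cl : CycleClasses S i H
  weight : ∀ z, cl.cl₀ (sp z) ∈ LinearMap.range H.gysin

/-- A regular proper flat model `𝒳` over the ring of integers `O_E` of a number field (or over a
smooth curve over a finite field) of the variety `X` of dimension `d`, and its cycles of codimension `i`.
Here `P` is the set of the maximal ideals of `O_E`, `C_X` is the group `Ch^i(X)_{ℚ, 0}`, `C` is the group
`Ch^i(𝒳)_{ℚ, 0}`, and `V p`, `V' p` are the Chow groups with coefficients `ℚ` of cycles of codimension `i`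
and `d + 1 - i` on `𝒳` supported on the fibre over `p` (Chow groups of the fibre). `res` is the
restriction to `X`, `int p z w` is the degree over the residue field of the intersection of `z` and `w`,
and `N p` is the number of elements of the residue field. There is a finite set of primes of bad
reduction; for the other `p` the restriction of `z` to the fibre over `p` is homologically
trivial, so that the numbers `int p z w` vanish. We have `Ch^0(X)_{ℚ, 0} = 0` and `Ch^i(X) = 0` for
`i > d`. -/
structure Model (d i : ℕ) (P CX C : Type) (V V' : P → Type) [AddCommGroup CX] [Module ℚ CX]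
    [AddCommGroup C] [Module ℚ C] [∀ p, AddCommGroup (V p)] [∀ p, Module ℚ (V p)]
    [∀ p, AddCommGroup (V' p)] [∀ p, Module ℚ (V' p)] where
  res : C →ₗ[ℚ] CX
  surjective : Function.Surjective res
  ι : ∀ p, V p →ₗ[ℚ] C
  res_ι : ∀ p v, res (ι p v) = 0
  int : ∀ p, C →ₗ[ℚ] V' p →ₗ[ℚ] ℚ
  int_ne : ∀ p q, p ≠ q → ∀ v w, int q (ι p v) w = 0
  N : P → ℕ
  bad : Finset P
  good : ∀ p, p ∉ bad → ∀ z w, int p z w = 0
  alteration : ∀ p ∈ bad, 0 < i → i ≤ d → Nonempty (AlterationWithClasses d i (ι p) (int p))
  trivial : i = 0 ∨ d < i → ∀ c : CX, c = 0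

/-- The Gillet-Soulé pairing of `z ∈ Ch^i(𝒳)_{ℚ, 0}` with an element of
`Ch^{d + 1 - i}_fin(𝒳)_ℚ`, the class of the sum of the cycles `w p` supported on the fibres over the
primes `p`: the sum of the numbers `int p z (w p) * log (N p)`. -/
noncomputable def Model.pairing {d i : ℕ} {P CX C : Type} {V V' : P → Type} [AddCommGroup CX]
    [Module ℚ CX] [AddCommGroup C] [Module ℚ C] [∀ p, AddCommGroup (V p)] [∀ p, Module ℚ (V p)]
    [∀ p, AddCommGroup (V' p)] [∀ p, Module ℚ (V' p)] (M : Model d i P CX C V V') (z : C)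
    (T : Finset P) (w : ∀ p, V' p) : ℝ :=
  ∑ p ∈ T, (M.int p z (w p) : ℝ) * Real.log (M.N p)

end Pool.Agent.N184.BB
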