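import Pool.Agent.N184.BB.Core

/-!
# Orthogonal lifting
-/

set_option autoImplicit false

open Module

namespace Pool.Agent.N184.BB

attribute [instance] AlterationWithClasses.prime

section
variable {d i : ℕ} {C V V' : Type} [AddCommGroup C] [Module ℚ C] [AddCommGroup V]
    [Module ℚ V] [AddCommGroup V'] [Module ℚ V'] {ι : V →ₗ[ℚ] C} {int : C →ₗ[ℚ] V' →ₗ[ℚ] ℚ}

/-- **The local statement.** -/
theorem AlterationWithClasses.exists_orth (D : AlterationWithClasses d i ι int) (hi : 0 < i) (hid : i ≤ d)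
    (h : i ≤ 1 ∨ d ≤ i + 1) (z : C) : ∃ v : V, ∀ w : V', int (z + ι v) w = 0 := by
  have hcoh : ∀ w ∈ D.S.gr 0 (d - i), D.S.ρ 0 w ∈ D.S.num 1 (d - i) →
      D.S.deg 0 (D.sp z * w) = 0 := by
    intro w hw hnum
    obtain ⟨x, hx⟩ := D.weight z
    have h1 : D.H.pair₀ (D.cl.cl₀ (D.sp z)) (D.cl.cl₀' w) = ((D.S.deg 0 (D.sp z * w) : ℚ) : ℚ_[D.ℓ]) :=
      D.cl.cl_deg (D.sp z) w (D.sp_mem z) hw
    have h2 : D.cl.cl₁' (D.S.ρ 0 w) = D.H.restrict (D.cl.cl₀' w) := D.cl.cl_rho w hw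
    rw [← hx, D.H.adjoint, ← h2, D.cl.hom_num h _ hnum, map_zero] at h1
    exact_mod_cast h1.symm
  obtain ⟨v, hv, hvw⟩ := D.S.exists_vertical hi hid h (D.rho_sp z) hcoh
  refine ⟨D.δ⁻¹ • D.push v, fun w => ?_⟩
  obtain ⟨w', hw', h1, h2⟩ := D.pull w
  have h3 : D.δ * int z w = D.S.deg 0 (D.sp z * w') := h1 z
  have h4 : int (ι (D.push v)) w = - D.S.deg 0 (D.S.G 0 (D.S.ρ 0 v) * w') := h2 v hv
  rw [hvw w' hw'] at h3
  rw [map_add, LinearMap.add_apply, map_smul, map_smul, LinearMap.smul_apply, h4, ← h3,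
    smul_eq_mul]
  field_simp [D.δ_ne]
  ring

end

section
variable {d i : ℕ} {P CX C : Type} {V V' : P → Type} [AddCommGroup CX] [Module ℚ CX]
    [AddCommGroup C] [Module ℚ C] [∀ p, AddCommGroup (V p)] [∀ p, Module ℚ (V p)]
    [∀ p, AddCommGroup (V' p)] [∀ p, Module ℚ (V' p)] (M : Model d i P CX C V V')

/-- **The global statement.** -/
theorem Model.exists_lift (h : i ≤ 1 ∨ d ≤ i + 1) (c : CX) :
    ∃ z : C, M.res z = c ∧ ∀ p w, M.int p z w = 0 := by
  classical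
  by_cases ht : i = 0 ∨ d < i
  · exact ⟨0, by rw [M.trivial ht c, map_zero], fun p w => by simp⟩
  · rw [not_or, not_lt] at ht
    obtain ⟨hi, hid⟩ := ht
    obtain ⟨z, hz⟩ := M.surjective c
    have hloc : ∀ p, ∃ v : V p, ∀ w : V' p, M.int p (z + M.ι p v) w = 0 := by
      intro p
      by_cases hp : p ∈ M.bad
      · obtain ⟨D⟩ := M.alteration p hp (Nat.pos_of_ne_zero hi) hid
        exact D.exists_orth (Nat.pos_of_ne_zero hi) hid h z
      · exact ⟨0, fun w => M.good p hp _ w⟩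
    choose v hv using hloc
    refine ⟨z + ∑ p ∈ M.bad, M.ι p (v p), ?_, fun p w => ?_⟩
    · rw [map_add, map_sum, Finset.sum_eq_zero fun p _ => M.res_ι p (v p), add_zero, hz]
    · by_cases hp : p ∈ M.bad
      · have h1 : M.int p (∑ q ∈ M.bad, M.ι q (v q)) w = M.int p (M.ι p (v p)) w := by
          rw [map_sum, LinearMap.sum_apply, Finset.sum_eq_single_of_mem p hp]
          intro q _ hqp
          exact M.int_ne q p hqp (v q) w
        have h2 := hv p w
        rw [map_add, LinearMap.add_apply] at h2 ⊢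
        rw [h1, h2]
      · exact M.good p hp _ w

theorem Model.exists_lift_pairing (h : i ≤ 1 ∨ d ≤ i + 1) (c : CX) :
    ∃ z : C, M.res z = c ∧ ∀ (T : Finset P) (w : ∀ p, V' p), M.pairing z T w = 0 := by
  obtain ⟨z, hz, hzw⟩ := M.exists_lift h c
  refine ⟨z, hz, fun T w => ?_⟩
  unfold Model.pairing
  refine Finset.sum_eq_zero fun p _ => ?_
  rw [hzw p (w p)]
  simp

end

end Pool.Agent.N184.BB
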